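import Pool.Agent.R138.PgMain
import Pool.Agent.Helper236.Lin

/-!
# MP_da28a5_co: matroid polytopes of projective geometries are indecomposable

For every finite field `F` and every `r ≥ 3`, every matroid subdivision of the matroid polytope
of `PG(r-1, q)`, `q = |F|`, is trivial.
-/

namespace Pool.Agent.Results.MP_da28a5_co.Indecomposable

open Set Module
open scoped LinearAlgebra.Projectivization

/-- The matroid polytope `P_M`: the convex hull of the indicator vectors of the bases. -/
def matroidPolytope {α : Type*} (M : Matroid α) : Set (α → ℝ) :=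
  convexHull ℝ {x | ∃ B, M.IsBase B ∧ x = Set.indicator B 1}

/-- `Q` is a (possibly empty) face of the polytope `P`. -/
def IsFace {α : Type*} (P Q : Set (α → ℝ)) : Prop := Convex ℝ Q ∧ IsExtreme ℝ P Q

/-- `𝒮` is (the list of all cells, or of all maximal cells, of) a matroid subdivision of the
matroid polytope of `M`: the polytopes of the matroids in `𝒮` cover exactly the polytope of `M`,
and any two of them meet in a common face. -/
structure IsMatroidSubdivision {α : Type*} (M : Matroid α) (𝒮 : Set (Matroid α)) : Prop where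
  ground : ∀ N ∈ 𝒮, N.E = M.E
  cover : ⋃ N ∈ 𝒮, matroidPolytope N = matroidPolytope M
  inter : ∀ N ∈ 𝒮, ∀ N' ∈ 𝒮, IsFace (matroidPolytope N) (matroidPolytope N ∩ matroidPolytope N')

/-- `M` is indecomposable: in every matroid subdivision of its matroid polytope, the only maximal
cell is the polytope of `M` itself. -/
def IsIndecomposable {α : Type*} (M : Matroid α) : Prop :=
  ∀ 𝒮 : Set (Matroid α), IsMatroidSubdivision M 𝒮 →
    {N | N ∈ 𝒮 ∧ ∀ N' ∈ 𝒮, matroidPolytope N ⊆ matroidPolytope N' → N' = N} = {M}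

/-- The projective geometry `PG(r-1, q)` over the field `F` with `q` elements: the ground set is
the set of points of the projective space of `F ^ r`, and a set of points is independent iff the
representative vectors are linearly independent. -/
noncomputable def PG (F : Type) [Field F] [Finite F] (r : ℕ) : Matroid (ℙ F (Fin r → F)) :=
  Pool.Agent.Helper236.linMatroid F (fun P : ℙ F (Fin r → F) => P.rep) univ (Set.toFinite _)

open Pool.Agent.R138.Pg

section general

variable {α : Type*} [Fintype α] [DecidableEq α]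

theorem polytope_eq (M : Matroid α) :
    matroidPolytope M = fpoly (fun B : Finset α => M.IsBase ↑B) := by
  unfold matroidPolytope fpoly
  congr 1
  ext x
  constructor
  · rintro ⟨B, hB, rfl⟩
    obtain ⟨C, rfl⟩ := (Set.toFinite B).exists_finset_coe
    refine ⟨C, hB, ?_⟩
    funext e
    simp [Set.indicator, ind]
  · rintro ⟨B, hB, rfl⟩
    refine ⟨(B : Set α), hB, ?_⟩
    funext e
    simp [Set.indicator, ind]

theorem bf_of_matroid (N : Matroid α) {r : ℕ}
    (hcard : ∀ B : Finset α, N.IsBase ↑B → B.card = r) :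
    BF r (fun B : Finset α => N.IsBase ↑B) := by
  refine ⟨hcard, ?_, ?_⟩
  · obtain ⟨B, hB⟩ := N.exists_isBase
    obtain ⟨C, rfl⟩ := (Set.toFinite B).exists_finset_coe
    exact ⟨C, hB⟩
  · intro A B hA hB e he heB
    obtain ⟨y, hy, hy2⟩ := hA.exchange hB (e := e) ⟨by exact_mod_cast he, by exact_mod_cast heB⟩
    refine ⟨y, by exact_mod_cast hy.1, by exact_mod_cast hy.2, ?_⟩
    convert hy2 using 1
    push_cast
    rfl

variable {F V : Type*} [Field F] [AddCommGroup V] [Module F V] [FiniteDimensional F V]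

theorem isBase_iff_LB {v : α → V} {r : ℕ} (hr : finrank F V = r)
    (hfull : ∀ x : V, x ≠ 0 → ∃ P : α, ∃ l : F, l ≠ 0 ∧ v P = l • x)
    {M : Matroid α} (hM : ∀ I, M.Indep I ↔ LinearIndepOn F v I) (B : Finset α) :
    M.IsBase ↑B ↔ LB F v r B := by
  have hcard : ∀ C : Finset α, LinearIndepOn F v (C : Set α) → C.card ≤ r := by
    intro C hC
    have h1 : LinearIndependent F (fun i : (C : Set α) => v i) := hC
    have := h1.fintype_card_le_finrank
    rw [hr] at this
    simpa using this
  constructor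
  · intro hB
    have hBi : LinearIndepOn F v (B : Set α) := (hM _).1 hB.indep
    rw [LB_iff_span hr (hcard B hBi)]
    by_contra hne
    obtain ⟨x, hx⟩ : ∃ x, x ∉ Submodule.span F (v '' (B : Set α)) := by
      by_contra h
      push Not at h
      exact hne (Submodule.eq_top_iff'.2 h)
    have hx0 : x ≠ 0 := by
      rintro rfl
      exact hx (Submodule.zero_mem _)
    obtain ⟨P, l, hl, hP⟩ := hfull x hx0
    have hvP : v P ∉ Submodule.span F (v '' (B : Set α)) := by
      intro h
      apply hx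
      have : x = l⁻¹ • v P := by rw [hP, smul_smul, inv_mul_cancel₀ hl, one_smul]
      rw [this]
      exact Submodule.smul_mem _ _ h
    have hins : M.Indep (insert P (B : Set α)) := (hM _).2 (hBi.insert hvP)
    have hmax := (Matroid.isBase_iff_maximal_indep.1 hB).2 hins (Set.subset_insert _ _)
    exact hvP (Submodule.subset_span ⟨P, hmax (Set.mem_insert _ _), rfl⟩)
  · rintro ⟨h1, h2⟩
    rw [Matroid.isBase_iff_maximal_indep]
    refine ⟨(hM _).2 h2, ?_⟩
    intro C hC hBC
    obtain ⟨C', rfl⟩ := (Set.toFinite C).exists_finset_coe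
    have hC' := hcard C' ((hM _).1 hC)
    have hsub : B ⊆ C' := by exact_mod_cast hBC
    have := Finset.eq_of_subset_of_card_le hsub (by omega)
    rw [this]

theorem LB_replace {v : α → V} {r : ℕ} (hr : finrank F V = r) {B : Finset α} (hB : LB F v r B)
    {x y c : α} (hx : x ∈ B) (hy : y ∈ B) (hxy : x ≠ y) {l : F} (hl : l ≠ 0)
    (hc : v c = l • (v x + v y)) : LB F v r (insert c (B.erase x)) := by
  have hcard : (insert c (B.erase x)).card ≤ r := by
    have h1 := Finset.card_insert_le c (B.erase x)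
    have h2 := Finset.card_erase_add_one hx
    have h3 := hB.1
    omega
  rw [LB_iff_span hr hcard, eq_top_iff, ← (LB_iff_span hr (le_of_eq hB.1)).1 hB,
    Submodule.span_le]
  have hyc : v y ∈ Submodule.span F (v '' ((insert c (B.erase x) : Finset α) : Set α)) :=
    Submodule.subset_span ⟨y, by simp [hy, hxy.symm], rfl⟩
  have hcc : v c ∈ Submodule.span F (v '' ((insert c (B.erase x) : Finset α) : Set α)) :=
    Submodule.subset_span ⟨c, by simp, rfl⟩
  rintro _ ⟨t, ht, rfl⟩
  by_cases htx : t = x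
  · subst htx
    have : v t = l⁻¹ • v c - v y := by
      rw [hc, smul_smul, inv_mul_cancel₀ hl, one_smul, add_sub_cancel_right]
    rw [SetLike.mem_coe, this]
    exact Submodule.sub_mem _ (Submodule.smul_mem _ _ hcc) hyc
  · apply Submodule.subset_span
    refine ⟨t, ?_, rfl⟩
    have : t ∈ B := by exact_mod_cast ht
    simp [this, htx]

theorem conn_of_full {v : α → V} {r : ℕ} (hr : finrank F V = r)
    (hfull : ∀ x : V, x ≠ 0 → ∃ P : α, ∃ l : F, l ≠ 0 ∧ v P = l • x)
    (hsimple : ∀ a b, a ≠ b → LinearIndepOn F v {a, b})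
    {M : Matroid α} (hM : ∀ I, M.Indep I ↔ LinearIndepOn F v I)
    (A : Finset α) (hA1 : A.Nonempty) (hA2 : A ≠ Finset.univ) :
    ∃ B1 B2, LB F v r B1 ∧ LB F v r B2 ∧ (B1 ∩ A).card ≠ (B2 ∩ A).card := by
  obtain ⟨a, ha⟩ := hA1
  obtain ⟨b, hb⟩ : ∃ b, b ∉ A := by
    by_contra h
    push Not at h
    exact hA2 (Finset.eq_univ_iff_forall.2 h)
  have hab : a ≠ b := by rintro rfl; exact hb ha
  have hli := hsimple a b hab
  have hsum : v a + v b ≠ 0 := by
    intro h
    have := (LinearIndepOn.pair_iff v hab).1 hli 1 1 (by simpa using h)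
    exact one_ne_zero this.1
  obtain ⟨c, l, hl, hc⟩ := hfull _ hsum
  obtain ⟨B', hB', hsub⟩ := ((hM _).2 hli).exists_isBase_superset
  obtain ⟨B, rfl⟩ := (Set.toFinite B').exists_finset_coe
  have haB : a ∈ B := by exact_mod_cast hsub (by simp)
  have hbB : b ∈ B := by exact_mod_cast hsub (by simp)
  have hLB : LB F v r B := (isBase_iff_LB hr hfull hM B).1 hB'
  by_cases hcA : c ∈ A
  · have h2 := LB_replace hr hLB hbB haB hab.symm hl (by rw [hc, add_comm])
    refine ⟨B, _, hLB, h2, ?_⟩
    have hcb : c ≠ b := by rintro rfl; exact hb hcA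
    have hcB : c ∉ B.erase b := by
      intro h
      have := h2.1
      rw [Finset.insert_eq_of_mem h, Finset.card_erase_of_mem hbB, hLB.1] at this
      have hpos : 0 < r := by rw [← hLB.1]; exact Finset.card_pos.2 ⟨a, haB⟩
      omega
    have : insert c (B.erase b) ∩ A = insert c (B ∩ A) := by
      ext t
      simp only [Finset.mem_inter, Finset.mem_insert, Finset.mem_erase]
      constructor
      · rintro ⟨h | ⟨h1, h2⟩, h3⟩
        · exact Or.inl h
        · exact Or.inr ⟨h2, h3⟩
      · rintro (h | ⟨h4, h5⟩)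
        · exact ⟨Or.inl h, by rw [h]; exact hcA⟩
        · exact ⟨Or.inr ⟨fun htb => hb (htb ▸ h5), h4⟩, h5⟩
    rw [this, Finset.card_insert_of_notMem]
    · omega
    · intro h
      exact hcB (Finset.mem_erase.2 ⟨hcb, (Finset.mem_inter.1 h).1⟩)
  · have h2 := LB_replace hr hLB haB hbB hab hl hc
    refine ⟨B, _, hLB, h2, ?_⟩
    have : insert c (B.erase a) ∩ A = (B ∩ A).erase a := by
      ext t
      simp only [Finset.mem_inter, Finset.mem_insert, Finset.mem_erase]
      constructor
      · rintro ⟨h | ⟨h1, h2⟩, h3⟩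
        · exact absurd (h ▸ h3) hcA
        · exact ⟨h1, h2, h3⟩
      · rintro ⟨h1, h2, h3⟩
        exact ⟨Or.inr ⟨h1, h2⟩, h3⟩
    rw [this, Finset.card_erase_of_mem (Finset.mem_inter.2 ⟨haB, ha⟩)]
    have hpos : 0 < (B ∩ A).card := Finset.card_pos.2 ⟨a, Finset.mem_inter.2 ⟨haB, ha⟩⟩
    omega

theorem mem_subdivision {v : α → V} {r : ℕ} (hr : finrank F V = r) (h3 : 3 ≤ r)
    (hfull : ∀ x : V, x ≠ 0 → ∃ P : α, ∃ l : F, l ≠ 0 ∧ v P = l • x)
    (hsimple : ∀ a b, a ≠ b → LinearIndepOn F v {a, b})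
    {M : Matroid α} (hM : ∀ I, M.Indep I ↔ LinearIndepOn F v I)
    {𝒮 : Set (Matroid α)} (h𝒮 : IsMatroidSubdivision M 𝒮) : M ∈ 𝒮 := by
  have hpred : (fun B : Finset α => M.IsBase ↑B) = LB F v r := by
    funext B
    exact propext (isBase_iff_LB hr hfull hM B)
  have hpM : matroidPolytope M = fpoly (LB F v r) := by rw [polytope_eq, hpred]
  have hsubP : ∀ N ∈ 𝒮, fpoly (fun B : Finset α => N.IsBase ↑B) ⊆ fpoly (LB F v r) := by
    intro N hN
    rw [← hpM, ← polytope_eq, ← h𝒮.cover]
    exact Set.subset_biUnion_of_mem (u := fun N => matroidPolytope N) hN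
  have hsub : ∀ N ∈ 𝒮, ∀ B : Finset α, N.IsBase ↑B → LB F v r B := by
    intro N hN B hB
    exact ind_mem_iff.1 (hsubP N hN (ind_mem hB))
  have hS : Sub r (LB F v r) ((fun (N : Matroid α) (B : Finset α) => N.IsBase ↑B) '' 𝒮) := by
    refine ⟨?_, ?_, ?_, ?_, ?_⟩
    · have := bf_of_matroid M (r := r) (fun B hB => ((isBase_iff_LB hr hfull hM B).1 hB).1)
      rwa [hpred] at this
    · rintro _ ⟨N, hN, rfl⟩
      exact bf_of_matroid N (fun B hB => (hsub N hN B hB).1)
    · rintro _ ⟨N, hN, rfl⟩ B hB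
      exact hsub N hN B hB
    · intro x hx
      rw [← hpM, ← h𝒮.cover] at hx
      simp only [Set.mem_iUnion] at hx
      obtain ⟨N, hN, hx⟩ := hx
      exact ⟨_, ⟨N, hN, rfl⟩, by rw [← polytope_eq]; exact hx⟩
    · rintro _ ⟨N, hN, rfl⟩ _ ⟨N', hN', rfl⟩ x hx y hy z hz hzN'
      have hz2 := (convex_fpoly (fun B : Finset α => N.IsBase ↑B)).openSegment_subset hx hy hz
      rw [← polytope_eq] at hx hy hz2 hzN' ⊢
      exact ((h𝒮.inter N hN N' hN').2.left_mem_of_mem_openSegment hx hy ⟨hz2, hzN'⟩ hz).2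
  obtain ⟨x, hx, hgen⟩ := exists_generic (M := LB F v r) hS.bfM.ne
    (conn_of_full hr hfull hsimple hM)
  obtain ⟨_, ⟨N, hN, rfl⟩, hxN⟩ := hS.cover x hx
  have hall := hS.cell_eq hr h3 hfull ⟨N, hN, rfl⟩ (fun B hB A hA B' hB' =>
    inter_eq_of_closed N hB A hA hB') (fun A h1 h2 => conn_of_generic hxN hgen h1 h2)
  have hNM : N = M := by
    apply Matroid.ext_isBase (h𝒮.ground N hN)
    intro B _
    obtain ⟨C, rfl⟩ := (Set.toFinite B).exists_finset_coe
    rw [isBase_iff_LB hr hfull hM C]
    exact ⟨fun h => hsub N hN C h, fun h => hall C h⟩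
  rw [← hNM]; exact hN

end general

/-- polytopes determine matroids on the same ground set -/
theorem eq_of_polytope_subset {α : Type*} [Finite α] {M N : Matroid α} (hE : N.E = M.E)
    (h1 : matroidPolytope N ⊆ matroidPolytope M) (h2 : matroidPolytope M ⊆ matroidPolytope N) :
    N = M := by
  classical
  have : Fintype α := Fintype.ofFinite α
  apply Matroid.ext_isBase hE
  intro B _
  obtain ⟨C, rfl⟩ := (Set.toFinite B).exists_finset_coe
  rw [polytope_eq, polytope_eq] at h1 h2
  constructor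
  · intro h
    exact ind_mem_iff.1 (h1 (ind_mem (N := fun B : Finset α => N.IsBase ↑B) h))
  · intro h
    exact ind_mem_iff.1 (h2 (ind_mem (N := fun B : Finset α => M.IsBase ↑B) h))

/-- **Theorem.** For every finite field `F` and every `r ≥ 3` the projective geometry
`PG(r-1, q)`, `q = |F|`, is indecomposable. -/
theorem result (F : Type) [Field F] [Finite F] (r : ℕ) (hr : 3 ≤ r) : IsIndecomposable (PG F r) := by
  classical
  intro 𝒮 h𝒮
  have : Fintype (ℙ F (Fin r → F)) := Fintype.ofFinite _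
  have hM : ∀ I, (PG F r).Indep I ↔ LinearIndepOn F (fun P : ℙ F (Fin r → F) => P.rep) I := by
    intro I
    unfold PG
    rw [Pool.Agent.Helper236.linMatroid_indep]
    simp
  have hfull : ∀ x : Fin r → F, x ≠ 0 → ∃ P : ℙ F (Fin r → F), ∃ l : F, l ≠ 0 ∧
      P.rep = l • x := by
    intro x hx
    obtain ⟨u, hu⟩ := Projectivization.exists_smul_eq_mk_rep F x hx
    exact ⟨Projectivization.mk F x hx, u, u.ne_zero, hu.symm⟩
  have hsimple : ∀ a b : ℙ F (Fin r → F), a ≠ b →
      LinearIndepOn F (fun P : ℙ F (Fin r → F) => P.rep) {a, b} := by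
    intro a b hab
    rw [LinearIndepOn.pair_iff _ hab]
    intro c d hcd
    have key : ∀ (a b : ℙ F (Fin r → F)) (c d : F), a ≠ b → c • a.rep + d • b.rep = 0 → c = 0 := by
      intro a b c d hab h
      by_contra hc
      apply hab
      rw [← a.mk_rep, ← b.mk_rep, Projectivization.mk_eq_mk_iff']
      refine ⟨-(c⁻¹ * d), ?_⟩
      have h1 : a.rep = c⁻¹ • (c • a.rep) := by rw [smul_smul, inv_mul_cancel₀ hc, one_smul]
      have h2 : c • a.rep = -(d • b.rep) := eq_neg_of_add_eq_zero_left h
      rw [h1, h2, smul_neg, smul_smul, neg_smul]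
    exact ⟨key a b c d hab hcd, key b a d c hab.symm (by rw [add_comm]; exact hcd)⟩
  have hmem : PG F r ∈ 𝒮 := mem_subdivision (F := F) (V := Fin r → F)
    (v := fun P : ℙ F (Fin r → F) => P.rep) (r := r) (by simp) hr hfull hsimple hM h𝒮
  have hsub : ∀ N ∈ 𝒮, matroidPolytope N ⊆ matroidPolytope (PG F r) := by
    intro N hN
    rw [← h𝒮.cover]
    exact Set.subset_biUnion_of_mem (u := fun N => matroidPolytope N) hN
  ext N
  constructor
  · rintro ⟨_, h⟩
    exact (h _ hmem (hsub N (by assumption))).symm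
  · rintro rfl
    refine ⟨hmem, fun N' hN' h => ?_⟩
    exact eq_of_polytope_subset (h𝒮.ground N' hN') (hsub N' hN') h

end Pool.Agent.Results.MP_da28a5_co.Indecomposable
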